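import Pool.Agent.P.MP_7aad9f_nt.Main

set_option autoImplicit false

open Real Finset Filter

noncomputable section

namespace Pool.Agent.P.MP_222ec5_nt

/-- Coefficients of the Waring formula. -/
def sc : ℕ → ℕ → ℕ
  | 0, 0 => 2
  | 0, _ + 1 => 0
  | 1, 0 => 1
  | 1, _ + 1 => 0
  | m + 2, 0 => sc (m + 1) 0
  | m + 2, j + 1 => sc (m + 1) (j + 1) + sc m j

lemma sc_zero : ∀ m j : ℕ, m < 2 * j → sc m j = 0
  | 0, 0, h => by omega
  | 0, _ + 1, _ => rfl
  | 1, 0, h => by omega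
  | 1, _ + 1, _ => rfl
  | m + 2, 0, h => by omega
  | m + 2, j + 1, h => by
    rw [sc, sc_zero (m + 1) (j + 1) (by omega), sc_zero m j (by omega)]

lemma sc_pos : ∀ m j : ℕ, 2 * j ≤ m → 0 < sc m j
  | 0, 0, _ => by simp [sc]
  | 0, _ + 1, h => by omega
  | 1, 0, _ => by simp [sc]
  | 1, _ + 1, h => by omega
  | m + 2, 0, _ => by rw [sc]; exact sc_pos (m + 1) 0 (by omega)
  | m + 2, j + 1, h => by
    rw [sc]
    have := sc_pos m j (by omega)
    omega

lemma waring (a b : ℤ) (N : ℕ) : ∀ m : ℕ, m < N →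
    (a + b) ^ m + (-a) ^ m = ∑ j ∈ range N, (sc m j : ℤ) * (a * (a + b)) ^ j * b ^ (m - 2 * j)
  | 0, h => by
    obtain ⟨N, rfl⟩ : ∃ K, N = K + 1 := ⟨N - 1, by omega⟩
    rw [sum_range_succ']
    simp [sc]
  | 1, h => by
    obtain ⟨N, rfl⟩ : ∃ K, N = K + 1 := ⟨N - 1, by omega⟩
    rw [sum_range_succ']
    simp [sc]
  | m + 2, h => by
    have h1 := waring a b N (m + 1) (by omega)
    have h0 := waring a b N m (by omega)
    obtain ⟨N, rfl⟩ : ∃ K, N = K + 1 := ⟨N - 1, by omega⟩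
    have e : (a + b) ^ (m + 2) + (-a) ^ (m + 2) =
        b * ((a + b) ^ (m + 1) + (-a) ^ (m + 1)) + a * (a + b) * ((a + b) ^ m + (-a) ^ m) := by ring
    rw [sum_range_succ, sc_zero m N (by omega)] at h0
    rw [sum_range_succ'] at h1
    rw [e, h1, h0, sum_range_succ', mul_add b, mul_add (a * (a + b)) (∑ _ ∈ _, _), mul_sum, mul_sum]
    have : ∀ j ∈ range N, (sc (m + 2) (j + 1) : ℤ) * (a * (a + b)) ^ (j + 1) *
        b ^ (m + 2 - 2 * (j + 1)) =
        b * ((sc (m + 1) (j + 1) : ℤ) * (a * (a + b)) ^ (j + 1) * b ^ (m + 1 - 2 * (j + 1))) +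
        a * (a + b) * ((sc m j : ℤ) * (a * (a + b)) ^ j * b ^ (m - 2 * j)) := by
      intro j _
      rw [sc, show m + 2 - 2 * (j + 1) = m - 2 * j by omega]
      by_cases hj : 2 * (j + 1) ≤ m + 1
      · rw [show m - 2 * j = (m + 1 - 2 * (j + 1)) + 1 by omega]
        push_cast
        ring
      · rw [sc_zero (m + 1) (j + 1) (by omega)]
        push_cast
        ring
    rw [sum_congr rfl this, sum_add_distrib, sc]
    simp only [mul_zero, Nat.sub_zero, pow_zero, Nat.cast_zero, zero_mul]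
    ring

lemma waring_odd (a b : ℤ) (k : ℕ) :
    (a + b) ^ (2 * k + 1) - a ^ (2 * k + 1) =
      ∑ j ∈ range (k + 1), (sc (2 * k + 1) j : ℤ) * (a * (a + b)) ^ j * b ^ (2 * k + 1 - 2 * j) := by
  have h := waring a b (2 * k + 2) (2 * k + 1) (by omega)
  rw [Odd.neg_pow ⟨k, rfl⟩, ← sub_eq_add_neg] at h
  rw [h]
  symm
  refine sum_subset (fun j hj => by simp at hj ⊢; omega) fun j _ hj => ?_
  rw [sc_zero _ _ (by simp at hj; omega)]
  simp

lemma subsum {m : ℕ} (t : Fin (m + 1) → ℤ) (hneg : ∀ i, i ≠ 0 → t i < 0) (hs : ∑ i, t i = 0)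
    (S : Finset (Fin (m + 1))) (hS : S.Nonempty) (hS' : S ≠ univ) : ∑ i ∈ S, t i ≠ 0 := by
  have key : ∀ U : Finset (Fin (m + 1)), U.Nonempty → 0 ∉ U → ∑ i ∈ U, t i < 0 := fun U hU h0 =>
    sum_neg (fun i hi => hneg i fun h => h0 (h ▸ hi)) hU
  by_cases h0 : (0 : Fin (m + 1)) ∈ S
  · have h1 := key Sᶜ (by
      rw [nonempty_iff_ne_empty]
      intro h
      exact hS' (by simpa using h)) (by simpa using h0)
    have h2 := sum_add_sum_compl S t
    omega
  · exact (key S hS h0).ne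

lemma sup_eq {m : ℕ} (t : Fin (m + 1) → ℤ) (hneg : ∀ i, i ≠ 0 → t i < 0) (hs : ∑ i, t i = 0) :
    (univ.sup fun i => (t i).natAbs) = (t 0).natAbs := by
  refine le_antisymm (Finset.sup_le fun i _ => ?_)
    (Finset.le_sup (f := fun i => (t i).natAbs) (mem_univ 0))
  by_cases hi : i = 0
  · rw [hi]
  · have h1 : ∑ j ∈ (univ.erase 0).erase i, t j ≤ 0 :=
      sum_nonpos fun j hj => (hneg j (by simp at hj; exact hj.2)).le
    have h2 := add_sum_erase univ t (mem_univ 0)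
    have h3 := add_sum_erase (univ.erase 0) t (show i ∈ univ.erase 0 by simpa using hi)
    have h4 := hneg i hi
    omega

/-- The tuple attached to `a + b = c`. -/
def tup (k a b : ℕ) : ℕ → ℤ
  | 0 => ((a : ℤ) + b) ^ (2 * k + 1)
  | 1 => -(a : ℤ) ^ (2 * k + 1)
  | j + 2 => -((sc (2 * k + 1) j : ℤ) * ((a : ℤ) * (a + b)) ^ j * (b : ℤ) ^ (2 * k + 1 - 2 * j))

lemma tup_sum (k a b : ℕ) : ∑ i : Fin (k + 2 + 1), tup k a b i = 0 := by
  rw [Fin.sum_univ_eq_sum_range (tup k a b), sum_range_succ', sum_range_succ']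
  have := waring_odd a b k
  simp only [tup, sum_neg_distrib]
  linarith

lemma tup_neg (k a b : ℕ) (ha : 0 < a) (hb : 0 < b) (i : Fin (k + 2 + 1)) (hi : i ≠ 0) :
    tup k a b i < 0 := by
  obtain ⟨i, hik⟩ := i
  match i, hik, hi with
  | 0, _, hi => exact absurd rfl hi
  | 1, _, _ => simp only [tup]; exact neg_neg_of_pos (by positivity)
  | j + 2, _, _ =>
    simp only [tup]
    have := sc_pos (2 * k + 1) j (by omega)
    exact neg_neg_of_pos (by positivity)

lemma tup_gcd (k a b : ℕ) (hab : Nat.Coprime a b) :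
    Finset.gcd univ (fun i : Fin (k + 2 + 1) => tup k a b i) = 1 := by
  set g := Finset.gcd univ (fun i : Fin (k + 2 + 1) => tup k a b i) with hg
  have h0 : g ∣ tup k a b 0 := Finset.gcd_dvd (f := fun i : Fin (k + 2 + 1) => tup k a b i)
    (mem_univ 0)
  have h1 : g ∣ tup k a b 1 := Finset.gcd_dvd (f := fun i : Fin (k + 2 + 1) => tup k a b i)
    (mem_univ ⟨1, by omega⟩)
  have hc : IsCoprime ((a : ℤ) + b) a := by
    have : IsCoprime (b : ℤ) a := Nat.isCoprime_iff_coprime.2 hab.symm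
    simpa [add_comm] using this.add_mul_left_left 1
  have hu : IsUnit g := (hc.pow (m := 2 * k + 1) (n := 2 * k + 1)).isUnit_of_dvd' h0
    (dvd_neg.1 h1)
  rw [← Finset.normalize_gcd (s := univ) (f := fun i : Fin (k + 2 + 1) => tup k a b i)] at hg
  rw [hg]
  exact normalize_eq_one.2 hu

/-- The constant part of the radical. -/
def SS (k : ℕ) : ℕ := ∏ j ∈ range (k + 1), sc (2 * k + 1) j

lemma SS_pos (k : ℕ) : 0 < SS k :=
  prod_pos fun j hj => sc_pos _ _ (by simp at hj; omega)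

lemma tup_rad (k a b : ℕ) (ha : 0 < a) (hb : 0 < b) :
    ∏ p ∈ (∏ i : Fin (k + 2 + 1), tup k a b i).natAbs.primeFactors, p ≤
      (∏ p ∈ (a * b * (a + b)).primeFactors, p) * SS k := by
  have hS := SS_pos k
  have hsub : (∏ i : Fin (k + 2 + 1), tup k a b i).natAbs.primeFactors ⊆
      (a * b * (a + b)).primeFactors ∪ (SS k).primeFactors := by
    intro p hp
    have hpp := Nat.prime_of_mem_primeFactors hp
    have hpz : Prime (p : ℤ) := Nat.prime_iff_prime_int.1 hpp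
    have hd : (p : ℤ) ∣ ∏ i : Fin (k + 2 + 1), tup k a b i :=
      Int.natCast_dvd.2 (Nat.dvd_of_mem_primeFactors hp)
    obtain ⟨⟨i, hik⟩, -, hi⟩ := (Prime.dvd_finsetProd_iff hpz _).1 hd
    have hA : (p : ℤ) ∣ a → p ∣ a * b * (a + b) := fun h =>
      ((Int.natCast_dvd_natCast.1 h).mul_right _).mul_right _
    have hB : (p : ℤ) ∣ b → p ∣ a * b * (a + b) := fun h =>
      ((Int.natCast_dvd_natCast.1 h).mul_left _).mul_right _
    have hC : (p : ℤ) ∣ a + b → p ∣ a * b * (a + b) := fun h =>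
      (Int.natCast_dvd_natCast.1 (by exact_mod_cast h)).mul_left _
    have hne : a * b * (a + b) ≠ 0 := by positivity
    rw [mem_union, Nat.mem_primeFactors, Nat.mem_primeFactors]
    match i, hik, hi with
    | 0, _, hi => exact Or.inl ⟨hpp, hC (hpz.dvd_of_dvd_pow hi), hne⟩
    | 1, _, hi => exact Or.inl ⟨hpp, hA (hpz.dvd_of_dvd_pow (dvd_neg.1 hi)), hne⟩
    | j + 2, hj, hi =>
      rcases hpz.dvd_or_dvd (dvd_neg.1 hi) with h | h
      · rcases hpz.dvd_or_dvd h with h | h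
        · exact Or.inr ⟨hpp, (Int.natCast_dvd_natCast.1 h).trans
            (dvd_prod_of_mem _ (by simp; omega)), hS.ne'⟩
        · rcases hpz.dvd_or_dvd (hpz.dvd_of_dvd_pow h) with h | h
          · exact Or.inl ⟨hpp, hA h, hne⟩
          · exact Or.inl ⟨hpp, hC h, hne⟩
      · exact Or.inl ⟨hpp, hB (hpz.dvd_of_dvd_pow h), hne⟩
  calc _ ≤ ∏ p ∈ (a * b * (a + b)).primeFactors ∪ (SS k).primeFactors, p :=
        prod_le_prod_of_subset_of_one_le' hsub fun p hp _ => by
          rcases mem_union.1 hp with h | h <;> exact (Nat.prime_of_mem_primeFactors h).one_le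
    _ ≤ (∏ p ∈ (a * b * (a + b)).primeFactors, p) * ∏ p ∈ (SS k).primeFactors, p := by
        rw [← prod_union_inter]
        exact Nat.le_mul_of_pos_right _ (prod_pos fun p hp =>
          (Nat.prime_of_mem_primeFactors (mem_inter.1 hp).1).pos)
    _ ≤ _ := Nat.mul_le_mul_left _ (Nat.le_of_dvd hS (Nat.prod_primeFactors_dvd _))

lemma large (B δ : ℝ) (hδ : 0 < δ) :
    ∃ M : ℕ, ∀ c : ℕ, M < c → 1 < log c ∧ B ≤ δ * √(log c) / log (log c) := by
  have h1 : ∀ᶠ L : ℝ in atTop, 1 < L ∧ B ≤ δ * √L / log L := by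
    have h := (isLittleO_log_rpow_atTop (r := 1 / 2) (by norm_num)).def
      (c := δ / (|B| + 1)) (by positivity)
    filter_upwards [h, eventually_gt_atTop 1] with L hL h1
    refine ⟨h1, ?_⟩
    have hl : 0 < log L := log_pos h1
    rw [Real.norm_eq_abs, Real.norm_eq_abs, abs_of_pos hl, ← sqrt_eq_rpow,
      abs_of_nonneg (sqrt_nonneg _), div_mul_eq_mul_div, le_div_iff₀ (by positivity)] at hL
    rw [le_div_iff₀ hl]
    nlinarith [le_abs_self B, abs_nonneg B]
  have h2 := (tendsto_log_atTop.comp tendsto_natCast_atTop_atTop).eventually h1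
  obtain ⟨M, hM⟩ := eventually_atTop.1 h2
  exact ⟨M, fun c hc => hM c hc.le⟩

theorem main (k : ℕ) (κ : ℝ) (hκ : κ < 8 * √π * exp (-3 / 4)) (M : ℕ) :
    ∃ t : Fin (k + 2 + 1) → ℤ, ∑ i, t i = 0 ∧ Finset.gcd univ t = 1 ∧
      (∀ S : Finset (Fin (k + 2 + 1)), S.Nonempty → S ≠ univ → ∑ i ∈ S, t i ≠ 0) ∧
      ∀ H R : ℕ, H = (univ.sup fun i => (t i).natAbs) →
        R = ∏ p ∈ (∏ i, t i).natAbs.primeFactors, p → M < H ∧
        (R : ℝ) ^ (2 * k + 1) *
          exp (κ * √((2 * k + 1 : ℕ) * log H) / log (log H)) < H := by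
  have hpos : 0 < 8 * √π * exp (-3 / 4) := by have := pi_pos; positivity
  have hκ0 : max κ 0 < 8 * √π * exp (-3 / 4) := max_lt hκ hpos
  obtain ⟨κ', h1, h2⟩ := exists_between hκ0
  obtain ⟨M', hM'⟩ := large (log (SS k)) (κ' - max κ 0) (by linarith)
  obtain ⟨a, b, c, ha, hb, hab, rfl, hM, hc⟩ :=
    Pool.Agent.P.MP_7aad9f_nt.main κ' h2 (max M M' : ℕ)
  have hM1 : max M M' < a + b := by exact_mod_cast hM
  obtain ⟨hL, hB⟩ := hM' (a + b) (lt_of_le_of_lt (le_max_right _ _) hM1)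
  refine ⟨fun i => tup k a b i, tup_sum k a b, tup_gcd k a b hab,
    subsum _ (tup_neg k a b ha hb) (tup_sum k a b), fun H R hH hR => ?_⟩
  rw [sup_eq _ (tup_neg k a b ha hb) (tup_sum k a b)] at hH
  have hH' : H = (a + b) ^ (2 * k + 1) := by
    rw [hH]
    simp only [Fin.val_zero, tup]
    rw [Int.natAbs_pow, ← Nat.cast_add, Int.natAbs_natCast]
  have hRle := tup_rad k a b ha hb
  rw [← hR] at hRle
  refine ⟨?_, ?_⟩
  · rw [hH']
    exact lt_of_lt_of_le (lt_of_le_of_lt (le_max_left _ _) hM1)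
      (Nat.le_self_pow (by omega) _)
  set D : ℕ := 2 * k + 1 with hD
  have hD1 : (1 : ℝ) ≤ D := by rw [hD]; push_cast; linarith [Nat.cast_nonneg (α := ℝ) k]
  set L := log ((a + b : ℕ) : ℝ) with hLdef
  have hlogH : log H = D * L := by rw [hH', Nat.cast_pow, log_pow]
  have hlL : 0 < log L := log_pos hL
  have hlDL : log L ≤ log (D * L) := log_le_log (by linarith) (by nlinarith)
  have hsq : √(D * (D * L)) = D * √L := by
    rw [← mul_assoc, sqrt_mul (by positivity), sqrt_mul_self (by linarith)]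
  have hS : (0 : ℝ) < SS k := by exact_mod_cast SS_pos k
  have hexp : κ * (D * √L) / log (D * L) ≤ D * (κ' * √L / log L - log (SS k)) := by
    have e1 : κ * (D * √L) / log (D * L) ≤ max κ 0 * (D * √L) / log (D * L) :=
      div_le_div_of_nonneg_right (mul_le_mul_of_nonneg_right (le_max_left _ _) (by positivity))
        (by linarith)
    have e2 : max κ 0 * (D * √L) / log (D * L) ≤ max κ 0 * (D * √L) / log L :=
      div_le_div_of_nonneg_left (by have := le_max_right κ 0; positivity) hlL hlDL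
    have e3 : max κ 0 * (D * √L) / log L =
        D * (κ' * √L / log L - (κ' - max κ 0) * √L / log L) := by ring
    nlinarith
  set R0 : ℝ := ((∏ p ∈ (a * b * (a + b)).primeFactors, p : ℕ) : ℝ) with hR0
  have hR0' : 0 ≤ R0 := Nat.cast_nonneg _
  have hRle' : (R : ℝ) ≤ R0 * SS k := by rw [hR0]; exact_mod_cast hRle
  rw [hlogH, hsq]
  calc (R : ℝ) ^ D * exp (κ * (D * √L) / log (D * L))
      ≤ (R0 * SS k) ^ D * exp (D * (κ' * √L / log L - log (SS k))) := by gcongr
    _ = (R0 * exp (κ' * √L / log L)) ^ D := by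
        rw [exp_nat_mul, ← mul_pow, exp_sub, exp_log hS]
        congr 1
        field_simp
    _ < ((a + b : ℕ) : ℝ) ^ D := pow_lt_pow_left₀ hc (by positivity) (by omega)
    _ = H := by rw [hH', Nat.cast_pow]

end Pool.Agent.P.MP_222ec5_nt
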