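import Mathlib

set_option autoImplicit false

namespace Pool.Agent.P.MP_222ec5_nt.Ten

open Finset

/-- The ten terms of the identity, at `y = 1`. -/
def tup (x : ℤ) : Fin 10 → ℤ :=
  ![65536 * x ^ 27, -65536 * x ^ 5, -((x + 1) ^ 27 * (x - 1) ^ 5), (x + 1) ^ 5 * (x - 1) ^ 27,
    44 * x * (x ^ 2 - 1) ^ 15, 3520 * x ^ 3 * (x ^ 2 - 1) ^ 13, 13312 * x ^ 5 * (x ^ 2 - 1) ^ 11,
    -851968 * x ^ 11 * (x ^ 2 - 1) ^ 5, -3604480 * x ^ 13 * (x ^ 2 - 1) ^ 3,
    -720896 * x ^ 15 * (x ^ 2 - 1)]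

theorem sum_tup (x : ℤ) : ∑ i, tup x i = 0 := by
  simp only [tup, Fin.sum_univ_succ, Matrix.cons_val_zero, Matrix.cons_val_succ,
    Finset.univ_eq_empty, Finset.sum_empty]
  ring

/-- The 2-adic valuations of the terms at `x = 2 ^ k`. -/
def ex (k : ℕ) : Fin 10 → ℕ :=
  ![16 + 27 * k, 16 + 5 * k, 0, 0, 2 + k, 6 + 3 * k, 10 + 5 * k, 16 + 11 * k, 16 + 13 * k,
    16 + 15 * k]

/-- The odd parts of the terms. -/
def od (x : ℤ) : Fin 10 → ℤ :=
  ![1, -1, -((x + 1) ^ 27 * (x - 1) ^ 5), (x + 1) ^ 5 * (x - 1) ^ 27,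
    11 * (x ^ 2 - 1) ^ 15, 55 * (x ^ 2 - 1) ^ 13, 13 * (x ^ 2 - 1) ^ 11,
    -13 * (x ^ 2 - 1) ^ 5, -55 * (x ^ 2 - 1) ^ 3, -11 * (x ^ 2 - 1)]

theorem tup_eq (k : ℕ) (i : Fin 10) : tup (2 ^ k) i = 2 ^ ex k i * od (2 ^ k) i := by
  fin_cases i <;> simp only [tup, ex, od] <;> simp <;> ring

theorem od_odd (x : ℤ) (hx : Even x) (i : Fin 10) : Odd (od x i) := by
  have h1 : Odd (x + 1) := hx.add_one
  have h2 : Odd (x - 1) := hx.sub_odd odd_one
  have h3 : Odd (x ^ 2 - 1) := by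
    have : x ^ 2 - 1 = (x + 1) * (x - 1) := by ring
    rw [this]; exact h1.mul h2
  have o11 : Odd (11 : ℤ) := by decide
  have o13 : Odd (13 : ℤ) := by decide
  have o55 : Odd (55 : ℤ) := by decide
  fin_cases i
  · exact odd_one
  · exact odd_one.neg
  · exact (h1.pow.mul h2.pow).neg
  · exact h1.pow.mul h2.pow
  · exact o11.mul h3.pow
  · exact o55.mul h3.pow
  · exact o13.mul h3.pow
  · exact o13.neg.mul h3.pow
  · exact o55.neg.mul h3.pow
  · exact o11.neg.mul h3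

theorem sum_ne_zero {ι : Type*} (S : Finset ι) (hS : S.Nonempty) (e : ι → ℕ) (o : ι → ℤ)
    (ho : ∀ i, Odd (o i)) (he : Set.InjOn e S) : ∑ i ∈ S, 2 ^ e i * o i ≠ 0 := by
  classical
  obtain ⟨j, hj, hmin⟩ := S.exists_min_image e hS
  intro h
  rw [← Finset.add_sum_erase S _ hj] at h
  have hd : (2 : ℤ) ^ (e j + 1) ∣ ∑ i ∈ S.erase j, 2 ^ e i * o i := by
    refine Finset.dvd_sum fun i hi => ?_
    obtain ⟨hne, hi⟩ := Finset.mem_erase.1 hi
    have h1 := hmin i hi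
    have h2 : e i ≠ e j := fun h => hne (he hi hj h)
    exact Dvd.dvd.mul_right (pow_dvd_pow 2 (by omega)) _
  have hd2 : (2 : ℤ) ^ (e j + 1) ∣ 2 ^ e j * o j := by
    have : 2 ^ e j * o j = -∑ i ∈ S.erase j, 2 ^ e i * o i := by linarith
    rw [this]; exact hd.neg_right
  rw [pow_succ] at hd2
  have hd3 : (2 : ℤ) ∣ o j := (mul_dvd_mul_iff_left (by positivity)).1 hd2
  exact (Int.not_even_iff_odd.2 (ho j)) (even_iff_two_dvd.2 hd3)

theorem ex_inj (k : ℕ) (hk : 1 ≤ k) (i j : Fin 10) (h : ex k i = ex k j) :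
    i = j ∨ (i = 2 ∧ j = 3) ∨ (i = 3 ∧ j = 2) := by
  fin_cases i <;> fin_cases j <;> simp [ex] at h ⊢ <;> omega

theorem even_pow (k : ℕ) (hk : 1 ≤ k) : Even ((2 : ℤ) ^ k) :=
  even_iff_two_dvd.2 (dvd_pow_self 2 (by omega))

theorem subsum (k : ℕ) (hk : 1 ≤ k) (S : Finset (Fin 10)) (hS : S.Nonempty) (hU : S ≠ univ) :
    ∑ i ∈ S, tup (2 ^ k) i ≠ 0 := by
  have key : ∀ T : Finset (Fin 10), T.Nonempty → ¬ ((2 : Fin 10) ∈ T ∧ (3 : Fin 10) ∈ T) →
      ∑ i ∈ T, tup (2 ^ k) i ≠ 0 := by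
    intro T hT h23
    simp only [tup_eq]
    refine sum_ne_zero T hT _ _ (od_odd _ (even_pow k hk)) ?_
    intro i hi j hj hij
    rcases ex_inj k hk i j hij with h | ⟨rfl, rfl⟩ | ⟨rfl, rfl⟩
    · exact h
    · exact absurd ⟨hi, hj⟩ h23
    · exact absurd ⟨hj, hi⟩ h23
  by_cases h23 : (2 : Fin 10) ∈ S ∧ (3 : Fin 10) ∈ S
  · have hc : Sᶜ.Nonempty := by
      rw [Finset.nonempty_iff_ne_empty]
      intro h
      exact hU ((Finset.compl_eq_empty_iff S).1 h)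
    have := key Sᶜ hc (fun h => (Finset.mem_compl.1 h.1) h23.1)
    intro h0
    apply this
    have h1 := Finset.sum_add_sum_compl S (tup (2 ^ k))
    rw [sum_tup, h0, zero_add] at h1
    exact h1
  · exact key S hS h23

theorem gcd_tup (k : ℕ) (hk : 1 ≤ k) : Finset.gcd Finset.univ (tup (2 ^ k)) = 1 := by
  have h0 : Finset.gcd Finset.univ (tup (2 ^ k)) ∣ tup (2 ^ k) 0 := Finset.gcd_dvd (mem_univ _)
  have h3 : Finset.gcd Finset.univ (tup (2 ^ k)) ∣ tup (2 ^ k) 3 := Finset.gcd_dvd (mem_univ _)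
  have hc : IsCoprime (tup (2 ^ k) 0) (tup (2 ^ k) 3) := by
    rw [tup_eq, tup_eq]
    have e0 : od (2 ^ k) 0 = 1 := rfl
    have e3 : ex k 3 = 0 := rfl
    rw [e0, e3, mul_one, pow_zero, one_mul]
    apply IsCoprime.pow_left
    obtain ⟨m, hm⟩ := od_odd _ (even_pow k hk) 3
    exact ⟨-m, 1, by rw [hm]; ring⟩
  have hu := hc.isUnit_of_dvd' h0 h3
  rw [← Finset.normalize_gcd]
  exact normalize_eq_one.2 hu

theorem tup_ne (k : ℕ) (hk : 1 ≤ k) (i : Fin 10) : tup (2 ^ k) i ≠ 0 := by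
  have := subsum k hk {i} (Finset.singleton_nonempty i) (by
    intro h
    have := congrArg Finset.card h
    simp at this)
  simpa using this

/-- Every term divides a power of `1430 (x^2 - 1)`. -/
theorem tup_dvd (k : ℕ) (i : Fin 10) :
    tup (2 ^ k) i ∣ (1430 * (((2 : ℤ) ^ k) ^ 2 - 1)) ^ (27 + 27 * k) := by
  set x : ℤ := 2 ^ k with hx
  have hod : od x i ∣ (715 * (x ^ 2 - 1)) ^ 27 := by
    fin_cases i
    · exact one_dvd _
    · exact (neg_dvd).2 (one_dvd _)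
    · exact ⟨-(715 ^ 27 * (x - 1) ^ 22), by simp only [od]; simp; ring⟩
    · exact ⟨715 ^ 27 * (x + 1) ^ 22, by simp only [od]; simp; ring⟩
    · exact ⟨65 * 715 ^ 26 * (x ^ 2 - 1) ^ 12, by simp only [od]; simp; ring⟩
    · exact ⟨13 * 715 ^ 26 * (x ^ 2 - 1) ^ 14, by simp only [od]; simp; ring⟩
    · exact ⟨55 * 715 ^ 26 * (x ^ 2 - 1) ^ 16, by simp only [od]; simp; ring⟩
    · exact ⟨-55 * 715 ^ 26 * (x ^ 2 - 1) ^ 22, by simp only [od]; simp; ring⟩
    · exact ⟨-13 * 715 ^ 26 * (x ^ 2 - 1) ^ 24, by simp only [od]; simp; ring⟩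
    · exact ⟨-65 * 715 ^ 26 * (x ^ 2 - 1) ^ 26, by simp only [od]; simp; ring⟩
  have hex : ex k i ≤ 27 + 27 * k := by
    fin_cases i <;> simp [ex] <;> omega
  rw [hx, tup_eq, ← hx]
  have : (1430 * (x ^ 2 - 1)) ^ (27 + 27 * k) =
      2 ^ (27 + 27 * k) * (715 * (x ^ 2 - 1)) ^ (27 + 27 * k) := by
    rw [← mul_pow]; congr 1; ring
  rw [this]
  exact mul_dvd_mul (pow_dvd_pow 2 hex) (hod.trans (pow_dvd_pow _ (by omega)))

/-- The radical of the product is at least 2 and at most `1430 * 4 ^ k`. -/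
theorem rad_bounds (k : ℕ) (hk : 1 ≤ k) :
    2 ≤ (∏ i, tup (2 ^ k) i).natAbs.primeFactors.prod id ∧
      (∏ i, tup (2 ^ k) i).natAbs.primeFactors.prod id ≤ 1430 * 4 ^ k := by
  have hP : (∏ i, tup (2 ^ k) i).natAbs ≠ 0 :=
    Int.natAbs_ne_zero.2 (Finset.prod_ne_zero_iff.2 fun i _ => tup_ne k hk i)
  have h4 : (1 : ℤ) < (2 ^ k) ^ 2 := by
    rw [← pow_mul]; exact one_lt_pow₀ (by norm_num) (by omega)
  set N : ℤ := 1430 * (((2 : ℤ) ^ k) ^ 2 - 1) with hN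
  have hN0 : 0 < N := by rw [hN]; linarith
  constructor
  · have h2 : 2 ∈ (∏ i, tup (2 ^ k) i).natAbs.primeFactors := by
      refine Nat.mem_primeFactors.2 ⟨Nat.prime_two, ?_, hP⟩
      have : (2 : ℤ) ∣ ∏ i, tup (2 ^ k) i := by
        refine Dvd.dvd.trans ?_ (Finset.dvd_prod_of_mem _ (mem_univ 0))
        rw [tup_eq]
        exact Dvd.dvd.mul_right (dvd_pow_self 2 (by simp [ex])) _
      exact Int.natCast_dvd.1 (by exact_mod_cast this)
    exact Finset.single_le_prod' (f := id)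
      (fun p hp => (Nat.prime_of_mem_primeFactors hp).one_le) h2
  · have hsub : (∏ i, tup (2 ^ k) i).natAbs.primeFactors ⊆ N.natAbs.primeFactors := by
      intro p hp
      obtain ⟨hpp, hpd, -⟩ := Nat.mem_primeFactors.1 hp
      refine Nat.mem_primeFactors.2 ⟨hpp, ?_, Int.natAbs_ne_zero.2 hN0.ne'⟩
      have hpi : Prime (p : ℤ) := Nat.prime_iff_prime_int.1 hpp
      have h1 : (p : ℤ) ∣ ∏ i, tup (2 ^ k) i := Int.natCast_dvd.2 hpd
      obtain ⟨i, -, hi⟩ := (Prime.dvd_finsetProd_iff hpi _).1 h1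
      exact Int.natCast_dvd.1 (hpi.dvd_of_dvd_pow (hi.trans (tup_dvd k i)))
    have hd : (∏ i, tup (2 ^ k) i).natAbs.primeFactors.prod id ∣ N.natAbs :=
      (Finset.prod_dvd_prod_of_subset _ _ _ hsub).trans (Nat.prod_primeFactors_dvd _)
    refine (Nat.le_of_dvd (Int.natAbs_pos.2 hN0.ne') hd).trans ?_
    have : (N.natAbs : ℤ) ≤ ((1430 * 4 ^ k : ℕ) : ℤ) := by
      rw [Int.natAbs_of_nonneg hN0.le, hN]
      push_cast
      have : ((2 : ℤ) ^ k) ^ 2 = 4 ^ k := by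
        rw [← pow_mul, mul_comm, pow_mul]; norm_num
      rw [this]; linarith
    exact_mod_cast this

/-- The height is at least `2 ^ (32 k)`. -/
theorem height_bound (k : ℕ) (hk : 1 ≤ k) :
    2 ^ (32 * k) ≤ Finset.univ.sup fun i => (tup (2 ^ k) i).natAbs := by
  refine le_trans ?_ (Finset.le_sup (f := fun i => (tup (2 ^ k) i).natAbs) (mem_univ 2))
  set x : ℤ := 2 ^ k with hx
  have hx2 : 2 ≤ x := by
    rw [hx]; calc (2 : ℤ) = 2 ^ 1 := by norm_num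
      _ ≤ 2 ^ k := pow_le_pow_right₀ (by norm_num) hk
  have h1 : x ^ 3 ≤ (x + 1) ^ 2 * (x - 1) := by nlinarith
  have h2 : x ^ 32 ≤ (x + 1) ^ 27 * (x - 1) ^ 5 := by
    calc x ^ 32 = x ^ 17 * (x ^ 3) ^ 5 := by ring
      _ ≤ (x + 1) ^ 17 * ((x + 1) ^ 2 * (x - 1)) ^ 5 := by gcongr; linarith
      _ = _ := by ring
  have h3 : tup x 2 = -((x + 1) ^ 27 * (x - 1) ^ 5) := rfl
  have h0 : 0 ≤ (x + 1) ^ 27 * (x - 1) ^ 5 := le_trans (by positivity) h2
  have : ((2 ^ (32 * k) : ℕ) : ℤ) ≤ ((tup x 2).natAbs : ℤ) := by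
    rw [h3, Int.natAbs_neg, Int.natAbs_of_nonneg h0]
    push_cast
    rw [mul_comm 32 k, pow_mul]
    exact h2
  exact_mod_cast this

theorem tup_inj : Function.Injective fun k : ℕ => tup (2 ^ k) := by
  intro k l h
  have h1 : tup (2 ^ k) 1 = tup (2 ^ l) 1 := congrFun h 1
  rw [tup_eq, tup_eq] at h1
  have e1 : ∀ x, od x 1 = -1 := fun _ => rfl
  have e2 : ∀ m, ex m 1 = 16 + 5 * m := fun _ => rfl
  rw [e1, e1, e2, e2] at h1
  have h2 : (2 : ℤ) ^ (16 + 5 * k) = 2 ^ (16 + 5 * l) := by linarith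
  have := (pow_right_injective₀ (by norm_num) (by norm_num)) h2
  omega

/-- The quality of the tuples exceeds any `c < 16` for large `k`. -/
theorem quality (c : ℝ) (hc : c < 16) : ∃ K : ℕ, 1 ≤ K ∧ ∀ k, K ≤ k →
    c < Real.log (((Finset.univ.sup fun i => (tup (2 ^ k) i).natAbs) : ℕ) : ℝ) /
      Real.log ((((∏ i, tup (2 ^ k) i).natAbs.primeFactors.prod id) : ℕ) : ℝ) := by
  obtain ⟨K, hK⟩ := exists_nat_gt (88 / (16 - c))
  refine ⟨K + 1, by omega, fun k hk => ?_⟩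
  have hk1 : 1 ≤ k := by omega
  obtain ⟨r1, r2⟩ := rad_bounds k hk1
  have hh := height_bound k hk1
  generalize (∏ i, tup (2 ^ k) i).natAbs.primeFactors.prod id = R at r1 r2 ⊢
  generalize (Finset.univ.sup fun i => (tup (2 ^ k) i).natAbs) = H at hh ⊢
  have l2 : 0 < Real.log 2 := Real.log_pos (by norm_num)
  have hR1 : (1 : ℝ) < R := by exact_mod_cast r1
  have hR : 0 < Real.log R := Real.log_pos hR1
  have hRu : Real.log R ≤ (11 + 2 * k) * Real.log 2 := by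
    have : (R : ℝ) ≤ 2 ^ (11 + 2 * k) := by
      have : R ≤ 2 ^ (11 + 2 * k) := by
        rw [pow_add, pow_mul, show (2 : ℕ) ^ 2 = 4 from rfl]; omega
      exact_mod_cast this
    have := Real.log_le_log (by linarith) this
    rw [Real.log_pow] at this
    exact_mod_cast this
  have hHl : 32 * k * Real.log 2 ≤ Real.log H := by
    have : (2 : ℝ) ^ (32 * k) ≤ H := by exact_mod_cast hh
    have := Real.log_le_log (by positivity) this
    rw [Real.log_pow] at this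
    exact_mod_cast this
  rw [lt_div_iff₀ hR]
  have hkK : (K : ℝ) ≤ k := by exact_mod_cast (by omega : K ≤ k)
  have hc0 : 0 < 16 - c := by linarith
  have h88 : 88 < (16 - c) * k := by
    rw [div_lt_iff₀ hc0] at hK
    nlinarith
  have hk0 : (1 : ℝ) ≤ k := by exact_mod_cast hk1
  by_cases hc1 : c ≤ 0
  · have : 0 < 32 * k * Real.log 2 := by positivity
    nlinarith
  · push Not at hc1
    have : c * (11 + 2 * k) < 32 * k := by nlinarith
    calc c * Real.log R ≤ c * ((11 + 2 * k) * Real.log 2) := by gcongr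
      _ = c * (11 + 2 * k) * Real.log 2 := by ring
      _ < 32 * k * Real.log 2 := by gcongr
      _ ≤ _ := hHl

theorem main (c : ℝ) (hc : c < 16) :
    {a : Fin 10 → ℤ | Finset.gcd Finset.univ a = 1 ∧
      (∀ S : Finset (Fin 10), S.Nonempty → S ≠ Finset.univ → ∑ i ∈ S, a i ≠ 0) ∧
      (∑ i, a i = 0) ∧
      c < Real.log (((Finset.univ.sup fun i => (a i).natAbs) : ℕ) : ℝ) /
        Real.log ((((∏ i, a i).natAbs.primeFactors.prod id) : ℕ) : ℝ)}.Infinite := by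
  obtain ⟨K, hK1, hK⟩ := quality c hc
  refine Set.infinite_of_injective_forall_mem (f := fun k : ℕ => tup (2 ^ (k + K))) ?_ ?_
  · intro k l h
    have := tup_inj h
    omega
  · intro k
    exact ⟨gcd_tup _ (by omega), subsum _ (by omega), sum_tup _, hK _ (by omega)⟩

end Pool.Agent.P.MP_222ec5_nt.Ten
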